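import Pool.Agent.J6H66.SEP.Eval

/-!
# A symmetric edge polytope whose gamma polynomial has a negative coefficient

`P_G`, its Ehrhart series and `h^*` are `edgePolytope`, `ehrhartSeries` and `hStar` of
`Pool.Agent.R135.SEPDefs`; `IsGamma` and `ofList` are in `Pool.Agent.J6H66.SEP.GammaDefs`.
-/

set_option autoImplicit false

namespace Pool.Agent.Results.MP_ca000f_co.GammaNegative

open Pool.Agent.R135.SEP Pool.Agent.J6H66.SEP

/-- The `22` edges of `G17`: the complete graph on `0, 1, 2, 3, 4` in which each of the six edges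
among `0, 1, 2, 3` is replaced by a path of length three. -/
def edges17 : List (ℕ × ℕ) :=
  [(0, 15), (15, 16), (16, 1), (0, 13), (13, 14), (14, 2), (0, 11), (11, 12), (12, 3), (1, 9),
    (9, 10), (10, 2), (1, 7), (7, 8), (8, 3), (2, 5), (5, 6), (6, 3), (0, 4), (1, 4), (2, 4),
    (3, 4)]

/-- The graph `G17`. -/
def G17 : SimpleGraph (Fin 17) := ofList 17 edges17

theorem gam17 : gam lf0 [(0, 1, 0), (0, 2, 0), (0, 3, 0), (1, 2, 0), (1, 3, 0), (2, 3, 0)]
    [(0, 4), (1, 4), (2, 4), (3, 4)] = some [1, 12, 96, 520, 1788, 3936, 5050, 2664, -216] := by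
  decide +kernel

theorem g17 : G17.Connected ∧ IsGamma 16 (hStar 16 (edgePolytope G17))
    (pol [1, 12, 96, 520, 1788, 3936, 5050, 2664, -216]) := by
  rw [G17, ofList_eq]
  exact transfer rfl (by decide +kernel) (eval_gamma (by decide +kernel) gam17)

/-- The gamma polynomial of the (connected) graph `G17` on `17` vertices exists and its
coefficient of `t^8` is `-216`. -/
theorem result : G17.Connected ∧
    ∃ g, IsGamma 16 (hStar 16 (edgePolytope G17)) g ∧ g.coeff 8 = -216 := by
  refine ⟨g17.1, _, g17.2, ?_⟩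
  rw [pol_coeff]
  rfl

end Pool.Agent.Results.MP_ca000f_co.GammaNegative
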