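import Pool.Agent.J6H66.SEP.Eval

/-!
# A two-connected graph whose summed gamma-differences have a negative coefficient

`P_G`, its Ehrhart series, `h^*` and two-connectedness are `edgePolytope`, `ehrhartSeries`, `hStar`
and `TwoConnected` of `Pool.Agent.R135.SEPDefs`; `IsGamma`, `gammaPoly` and `ofList` are in
`Pool.Agent.J6H66.SEP.GammaDefs`.
-/

set_option autoImplicit false

namespace Pool.Agent.Results.MP_ca000f_co.ZNegative

open Pool.Agent.R135.SEP Pool.Agent.J6H66.SEP

/-- The `20` edges of `G15`: the complete graph on `0, 1, 2, 3, 4` in which each of the five edges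
`02`, `03`, `13`, `14`, `24` is replaced by a path of length three. -/
def edges15 : List (ℕ × ℕ) :=
  [(0, 13), (13, 14), (14, 2), (0, 11), (11, 12), (12, 3), (1, 9), (9, 10), (10, 3), (1, 7),
    (7, 8), (8, 4), (2, 5), (5, 6), (6, 4), (0, 1), (1, 2), (2, 3), (3, 4), (0, 4)]

/-- The graph `G15`. -/
def G15 : SimpleGraph (Fin 15) := ofList 15 edges15

open Classical in
/-- `Z_G(t) = ∑_{e ∈ E} (γ(h^*_{P_G}) - γ(h^*_{P_{G∖e}}))(t)`, where `d = n - 1` and `γ` is
`gammaPoly`. -/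
noncomputable def zPoly {n : ℕ} (G : SimpleGraph (Fin n)) : Polynomial ℤ :=
  ∑ e ∈ G.edgeFinset, (gammaPoly (n - 1) (hStar (n - 1) (edgePolytope G)) -
    gammaPoly (n - 1) (hStar (n - 1) (edgePolytope (G.deleteEdges {e}))))

/-! ### auxiliary -/

/-- the base cycle -/
def cyc : List (ℕ × ℕ) := [(0, 1), (1, 2), (2, 3), (3, 4), (0, 4)]

/-- the steps -/
def stp : List (ℕ × ℕ × ℕ) := [(0, 2, 0), (0, 3, 0), (1, 3, 0), (1, 4, 0), (2, 4, 0)]

/-- the edges as pairs -/
def ed : Fin 20 → Fin 15 × Fin 15 :=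
  ![(0, 13), (13, 14), (14, 2), (0, 11), (11, 12), (12, 3), (1, 9), (9, 10), (10, 3), (1, 7),
    (7, 8), (8, 4), (2, 5), (5, 6), (6, 4), (0, 1), (1, 2), (2, 3), (3, 4), (0, 4)]

/-- the code of `G15` minus the edge `i` -/
def cd (i : ℕ) : List (ℕ × ℕ) × List (ℕ × ℕ × ℕ) × List ℤ :=
  if i < 15 then
    (cyc, stp.mapIdx (fun j s => (s.1, s.2.1, if i / 3 = j then i % 3 + 1 else 0)),
      [1, 10, 70, 248, 476, 452, 120, 0])
  else
    (cyc.eraseIdx (i - 15), stp, [1, 10, 70, 320, 908, 1424, 1074, 324])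

theorem cd_ok : ∀ i : Fin 20, pre (cd i).1 (cd i).2.1 = true ∧
    gam lf0 (cd i).2.1 (cd i).1 = some (cd i).2.2 ∧
    real (cd i).1 (cd i).2.1 = del edges15 (ed i).1 (ed i).2 ∧
    (cd i).2.1.length = 5 ∧ (((ed i).2 : ℕ), ((ed i).1 : ℕ)) ∉ edges15 := by
  decide +kernel

theorem edge_pairs : edges15 = List.ofFn (fun i : Fin 20 => (((ed i).1 : ℕ), ((ed i).2 : ℕ))) := by
  decide +kernel

theorem gam15 : gam lf0 stp cyc = some [1, 12, 96, 430, 1140, 1722, 1144, 72] := by
  decide +kernel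

theorem g15 : G15.Connected ∧ IsGamma 14 (hStar 14 (edgePolytope G15))
    (pol [1, 12, 96, 430, 1140, 1722, 1144, 72]) := by
  rw [G15, ofList_eq]
  exact transfer rfl (by decide +kernel) (eval_gamma (L := cyc) (st := stp) (by decide +kernel)
    gam15)

theorem gdel (i : Fin 20) : (G15.deleteEdges {s((ed i).1, (ed i).2)}).Connected ∧
    IsGamma 14 (hStar 14 (edgePolytope (G15.deleteEdges {s((ed i).1, (ed i).2)})))
      (pol (cd i).2.2) := by
  obtain ⟨h1, h2, h3, h4, h5⟩ := cd_ok i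
  rw [G15, ofList_eq, gr_del h5]
  have h6 := eval_gamma h1 h2
  rw [h4] at h6
  exact transfer (by rw [nn_eq, h4]) h3 h6

theorem mem_edges {e : Sym2 (Fin 15)} : e ∈ G15.edgeSet ↔ ∃ i, s((ed i).1, (ed i).2) = e := by
  induction e using Sym2.ind with
  | _ a b =>
    rw [SimpleGraph.mem_edgeSet]
    have h1 : ∀ x y : Fin 15, ((x : ℕ), (y : ℕ)) ∈ edges15 ↔ ∃ i, ed i = (x, y) := by
      intro x y
      rw [edge_pairs, List.mem_ofFn]
      constructor
      · rintro ⟨i, hi⟩
        rw [Prod.mk.injEq] at hi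
        exact ⟨i, Prod.ext (Fin.ext hi.1) (Fin.ext hi.2)⟩
      · rintro ⟨i, hi⟩
        exact ⟨i, by simp only [hi]⟩
    have hne : ∀ i, (ed i).1 ≠ (ed i).2 := by decide +kernel
    constructor
    · rintro ⟨_, h2 | h2⟩
      · obtain ⟨i, hi⟩ := (h1 a b).1 h2
        exact ⟨i, by rw [hi]⟩
      · obtain ⟨i, hi⟩ := (h1 b a).1 h2
        exact ⟨i, by rw [hi]; exact Sym2.eq_swap⟩
    · rintro ⟨i, hi⟩
      rw [Sym2.eq_iff] at hi
      rcases hi with ⟨h2, h3⟩ | ⟨h2, h3⟩
      · subst h2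
        subst h3
        exact ⟨hne i, Or.inl ((h1 _ _).2 ⟨i, rfl⟩)⟩
      · subst h2
        subst h3
        exact ⟨(hne i).symm, Or.inr ((h1 _ _).2 ⟨i, rfl⟩)⟩

/-- the Hamiltonian cycle -/
def ham : Fin 15 → Fin 15 := ![0, 13, 14, 2, 5, 6, 4, 8, 7, 1, 9, 10, 3, 12, 11]

theorem two15 : TwoConnected G15 := by
  rw [G15, ofList_eq]
  refine ham_two _ (by norm_num) (fun i => ham ⟨i % 15, Nat.mod_lt _ (by norm_num)⟩) ?_ ?_ ?_
  · intro i
    have h1 : ∀ j : Fin 15, adjB edges15 (ham j) (ham ⟨(j + 1) % 15, Nat.mod_lt _ (by norm_num)⟩) =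
        true := by decide +kernel
    have h2 := h1 ⟨i % 15, Nat.mod_lt _ (by norm_num)⟩
    rw [gr_adj]
    simpa using h2
  · intro i
    simp
  · intro i hi j hj hij
    have h1 : Function.Injective ham := by decide +kernel
    have h2 := congrArg Fin.val (h1 hij)
    simp only at h2
    rwa [Nat.mod_eq_of_lt hi, Nat.mod_eq_of_lt hj] at h2

theorem z15 : (zPoly G15).coeff 7 = -180 := by
  classical
  have hset : G15.edgeFinset = (Finset.univ : Finset (Fin 20)).image
      (fun i => s((ed i).1, (ed i).2)) := by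
    ext e
    rw [SimpleGraph.mem_edgeFinset, mem_edges]
    simp
  have hinj : Function.Injective (fun i : Fin 20 => s((ed i).1, (ed i).2)) := by decide +kernel
  unfold zPoly
  rw [show (15 - 1 : ℕ) = 14 from rfl]
  have e1 : (∑ e ∈ G15.edgeFinset, (gammaPoly 14 (hStar 14 (edgePolytope G15)) -
      gammaPoly 14 (hStar 14 (edgePolytope (G15.deleteEdges {e}))))).coeff 7 = -180 := by
    rw [hset, Finset.sum_image (fun i _ j _ h => hinj h), Polynomial.finsetSum_coeff]
    have e2 : ∀ i : Fin 20, (gammaPoly 14 (hStar 14 (edgePolytope G15)) -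
        gammaPoly 14 (hStar 14 (edgePolytope
          (G15.deleteEdges {s((ed i).1, (ed i).2)})))).coeff 7 =
        72 - (cd i).2.2.getD 7 0 := by
      intro i
      rw [gammaPoly_eq g15.2, gammaPoly_eq (gdel i).2, Polynomial.coeff_sub, pol_coeff, pol_coeff]
      rfl
    rw [Finset.sum_congr rfl (fun i _ => e2 i)]
    decide +kernel
  convert e1

/-- **Main result.** `G15` is two-connected, the gamma polynomials of `h^*` of the symmetric edge
polytopes of `G15` and of all its one-edge-deleted subgraphs exist (and those subgraphs are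
connected), and the coefficient of `t^7` in `Z_{G15}` is `-180`. -/
theorem result :
    TwoConnected G15 ∧
      (∃ g, IsGamma 14 (hStar 14 (edgePolytope G15)) g) ∧
      (∀ e ∈ G15.edgeSet, (G15.deleteEdges {e}).Connected ∧
        ∃ g, IsGamma 14 (hStar 14 (edgePolytope (G15.deleteEdges {e}))) g) ∧
      (zPoly G15).coeff 7 = -180 := by
  refine ⟨two15, ⟨_, g15.2⟩, ?_, z15⟩
  intro e he
  obtain ⟨i, rfl⟩ := mem_edges.1 he
  exact ⟨(gdel i).1, _, (gdel i).2⟩

end Pool.Agent.Results.MP_ca000f_co.ZNegative
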